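import Mathlib

/-!
# Counting lemmas
-/

namespace PG219

/-- visits of an increasing sequence to the residues `< l` modulo `M` -/
lemma count_le (M l N n : ℕ) (hM : 0 < M) (f : ℕ → ℕ) (hf : StrictMonoOn f (Set.Iio n))
    (hN : ∀ i < n, f i < f 0 + N) :
    ((Finset.range n).filter fun i => f i % M < l).card ≤ (N / M + 1) * l := by
  classical
  rcases Nat.eq_zero_or_pos n with h0 | h0
  · subst h0; simp
  have hf0 : ∀ i < n, f 0 ≤ f i := by
    intro i hi
    rcases Nat.eq_zero_or_pos i with h | h
    · subst h; exact le_rfl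
    · exact (hf (Set.mem_Iio.2 h0) (Set.mem_Iio.2 hi) h).le
  have hcard : ((Finset.range (N / M + 1)) ×ˢ (Finset.range l)).card = (N / M + 1) * l := by
    simp
  rw [← hcard]
  refine Finset.card_le_card_of_injOn (fun i => ((f i - f 0) / M, f i % M)) ?_ ?_
  · intro i hi
    simp only [Finset.coe_filter, Finset.mem_range, Set.mem_setOf_eq] at hi
    simp only [Finset.coe_product, Set.mem_prod, Finset.coe_range, Set.mem_Iio]
    refine ⟨?_, hi.2⟩
    have := hN i hi.1
    have h1 : (f i - f 0) / M ≤ N / M := Nat.div_le_div_right (by omega)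
    omega
  · intro i hi j hj hij
    simp only [Finset.coe_filter, Finset.mem_range, Set.mem_setOf_eq] at hi hj
    simp only [Prod.mk.injEq] at hij
    have hi0 := hf0 i hi.1
    have hj0 := hf0 j hj.1
    have key : f i = f j := by
      have h1 := Nat.div_add_mod (f i - f 0) M
      have h2 := Nat.div_add_mod (f j - f 0) M
      have h3 : (f i - f 0) % M = (f j - f 0) % M := by
        have : (f i) ≡ (f j) [MOD M] := hij.2
        have h4 : f 0 + (f i - f 0) ≡ f 0 + (f j - f 0) [MOD M] := by
          rwa [Nat.add_sub_cancel' hi0, Nat.add_sub_cancel' hj0]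
        exact Nat.ModEq.add_left_cancel' _ h4
      rw [hij.1] at h1
      rw [h3] at h1
      omega
    exact hf.injOn (Set.mem_Iio.2 hi.1) (Set.mem_Iio.2 hj.1) key

/-- residues `v < l s` with `v % l + n > l` -/
lemma card_bad (l s n : ℕ) (hl : 0 < l) :
    ((Finset.range (l * s)).filter fun v => ¬ (v % l + n ≤ l)).card ≤ s * n := by
  classical
  have hcard : ((Finset.range s) ×ˢ (Finset.Ico (l - n) l)).card ≤ s * n := by
    simp only [Finset.card_product, Finset.card_range, Nat.card_Ico]
    apply Nat.mul_le_mul_left; omega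
  refine le_trans ?_ hcard
  refine Finset.card_le_card_of_injOn (fun v => (v / l, v % l)) ?_ ?_
  · intro v hv
    simp only [Finset.coe_filter, Finset.mem_range, Set.mem_setOf_eq] at hv
    simp only [Finset.coe_product, Set.mem_prod, Finset.coe_range, Set.mem_Iio, Finset.coe_Ico,
      Set.mem_Ico]
    refine ⟨Nat.div_lt_of_lt_mul hv.1, ?_, Nat.mod_lt _ hl⟩
    have := hv.2
    omega
  · intro a _ b _ hab
    simp only [Prod.mk.injEq] at hab
    rw [← Nat.div_add_mod a l, ← Nat.div_add_mod b l, hab.1, hab.2]

/-- inside a block, activity only depends on the row modulo `s` -/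
lemma active_iff (l s n w i r : ℕ) (hl : 0 < l) (hs : 0 < s) (hw : w % l + n ≤ l) (hi : i < n) :
    (w + i + l * r) % (l * s) < l ↔ (w / l + r) % s = 0 := by
  have h1 : (w + i + l * r) / l = w / l + r := by
    have := Nat.div_add_mod w l
    have h2 : w + i + l * r = (w % l + i) + l * (w / l + r) := by
      calc w + i + l * r = (l * (w / l) + w % l) + i + l * r := by rw [this]
        _ = _ := by ring
    rw [h2, Nat.add_mul_div_left _ _ hl, Nat.div_eq_of_lt (by omega), zero_add]
  rw [Nat.mod_mul, h1]
  have hlt := Nat.mod_lt (w + i + l * r) hl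
  constructor
  · intro h
    by_contra hne
    have : 1 ≤ (w / l + r) % s := Nat.one_le_iff_ne_zero.2 hne
    have := Nat.le_mul_of_pos_right l this
    omega
  · intro h
    rw [h]; simpa using hlt

/-- the next active row -/
lemma exists_row (s a : ℕ) (hs : 0 < s) : ∃ r < s, (a + r) % s = 0 := by
  refine ⟨(s - a % s) % s, Nat.mod_lt _ hs, ?_⟩
  rw [Nat.add_mod, Nat.mod_mod, ← Nat.add_mod, Nat.add_mod]
  have h := Nat.mod_lt a hs
  rcases Nat.eq_zero_or_pos (a % s) with h0 | h0
  · simp [h0]
  · rw [Nat.mod_eq_of_lt (a := s - a % s) (by omega)]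
    have : a % s + (s - a % s) = s := by omega
    rw [this]; simp

/-- a trajectory which stops on active rows does not go beyond the first one -/
lemma traj_le (n R : ℕ) (r : ℕ → ℕ) (h0 : r 0 = 0) (h1 : ∀ i < n, r (i + 1) ≤ r i + 1)
    (hstop : ∀ i < n, r i = R → r (i + 1) = r i) : ∀ i ≤ n, r i ≤ R := by
  intro i
  induction i with
  | zero => intro _; omega
  | succ i ih =>
    intro hi
    have hi' := ih (by omega)
    rcases Nat.lt_or_ge (r i) R with h | h
    · have := h1 i (by omega); omega
    · have := hstop i (by omega) (by omega); omega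

end PG219
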