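import Mathlib

/-!
# Percolation games on `ℤ^d` (definitions for MP_f59e5e_pr)
-/

open MeasureTheory Filter Topology

namespace PG219

/-- A percolation game on `ℤ^d`: finite action sets, a probability space with a measurable,
measure preserving and ergodic family of shifts `τ z`, a bounded stationary payoff `g` and a
transition map `q`. -/
structure PercolationGame (d : ℕ) where
  /-- actions of Player 1 -/
  I : Type
  /-- actions of Player 2 -/
  J : Type
  finI : Finite I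
  neI : Nonempty I
  finJ : Finite J
  neJ : Nonempty J
  /-- sample space -/
  Ω : Type
  /-- events -/
  mΩ : MeasurableSpace Ω
  /-- probability -/
  P : @Measure Ω mΩ
  prob : @IsProbabilityMeasure Ω mΩ P
  /-- shifts -/
  τ : (Fin d → ℤ) → Ω → Ω
  τ_pres : ∀ z, @MeasurePreserving Ω Ω mΩ mΩ (τ z) P P
  τ_add : ∀ z z', τ (z + z') = τ z ∘ τ z'
  erg : ∀ F : Set Ω, MeasurableSet[mΩ] F → (∀ z, τ z '' F = F) → P F = 0 ∨ P F = 1
  /-- payoff -/
  g : Ω → (Fin d → ℤ) → I → J → ℝ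
  g_meas : ∀ z i j, @Measurable Ω ℝ mΩ _ (fun ω => g ω z i j)
  g_bdd : ∃ C : ℝ, ∀ ω z i j, |g ω z i j| ≤ C
  g_stat : ∀ (z z' : Fin d → ℤ) i j ω, g (τ z ω) z' i j = g ω (z + z') i j
  /-- transition -/
  q : I → J → (Fin d → ℤ)

namespace PercolationGame

variable {d : ℕ} (G : PercolationGame d)

/-- histories: the list of the past states and actions (most recent first) -/
abbrev Hist : Type := List ((Fin d → ℤ) × G.I × G.J)

/-- strategies of Player 1: past states and actions and current state to action -/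
abbrev Strat1 : Type := G.Hist → (Fin d → ℤ) → G.I

/-- strategies of Player 2: past states and actions, current state and current action of
Player 1 to action -/
abbrev Strat2 : Type := G.Hist → (Fin d → ℤ) → G.I → G.J

/-- the history and the current state at stage `m + 1` (`m` stages have been played) -/
def play (σ : G.Strat1) (τ : G.Strat2) (z : Fin d → ℤ) : ℕ → G.Hist × (Fin d → ℤ)
  | 0 => ([], z)
  | m + 1 =>
    let h := (play σ τ z m).1
    let x := (play σ τ z m).2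
    let i := σ h x
    let j := τ h x i
    ((x, i, j) :: h, x + G.q i j)

/-- payoff of the stage with index `m` (the `(m+1)`-st stage) -/
noncomputable def stagePayoff (ω : G.Ω) (σ : G.Strat1) (τ : G.Strat2) (z : Fin d → ℤ) (m : ℕ) :
    ℝ :=
  let h := (G.play σ τ z m).1
  let x := (G.play σ τ z m).2
  let i := σ h x
  let j := τ h x i
  G.g ω x i j

/-- the `n`-stage payoff -/
noncomputable def payoff (ω : G.Ω) (n : ℕ) (z : Fin d → ℤ) (σ : G.Strat1) (τ : G.Strat2) : ℝ :=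
  (∑ m ∈ Finset.range n, G.stagePayoff ω σ τ z m) / n

/-- the value `v_n^ω(z)`: max-min over strategies -/
noncomputable def value (ω : G.Ω) (n : ℕ) (z : Fin d → ℤ) : ℝ :=
  ⨆ σ : G.Strat1, ⨅ τ : G.Strat2, G.payoff ω n z σ τ

/-- oriented: there is `u ∈ ℤ^d` with `q(i,j)·u > 0` for all `i, j` -/
def Oriented : Prop := ∃ u : Fin d → ℤ, ∀ i j, 0 < ∑ a, G.q i j a * u a

/-- limit value: for every `z`, `v_n^ω(z)` converges for almost every `ω` -/
def HasLimitValue : Prop :=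
  ∀ z : Fin d → ℤ, ∀ᵐ ω ∂G.P, ∃ l : ℝ, Tendsto (fun n : ℕ => G.value ω n z) atTop (𝓝 l)

lemma stagePayoff_le {C : ℝ} (hC : ∀ ω z i j, |G.g ω z i j| ≤ C) (ω : G.Ω) (σ : G.Strat1)
    (τ : G.Strat2) (z : Fin d → ℤ) (m : ℕ) : |G.stagePayoff ω σ τ z m| ≤ C := hC _ _ _ _

lemma payoff_abs_le {C : ℝ} (hC : ∀ ω z i j, |G.g ω z i j| ≤ C) (ω : G.Ω) (n : ℕ)
    (z : Fin d → ℤ) (σ : G.Strat1) (τ : G.Strat2) : |G.payoff ω n z σ τ| ≤ C := by
  have hC0 : 0 ≤ C := by
    obtain ⟨i⟩ := G.neI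
    obtain ⟨j⟩ := G.neJ
    exact (abs_nonneg _).trans (hC ω z i j)
  unfold payoff
  rcases Nat.eq_zero_or_pos n with h | h
  · subst h; simpa using hC0
  have hn : (0 : ℝ) < n := by exact_mod_cast h
  rw [abs_div, abs_of_pos hn, div_le_iff₀ hn]
  calc |∑ m ∈ Finset.range n, G.stagePayoff ω σ τ z m|
      ≤ ∑ m ∈ Finset.range n, |G.stagePayoff ω σ τ z m| := Finset.abs_sum_le_sum_abs _ _
    _ ≤ ∑ m ∈ Finset.range n, C := Finset.sum_le_sum fun m _ => G.stagePayoff_le hC ω σ τ z m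
    _ = C * n := by simp [mul_comm]

/-- Player 1 can guarantee `c` ⟹ `c ≤ v_n`. -/
lemma le_value (ω : G.Ω) (n : ℕ) (z : Fin d → ℤ) (c : ℝ) (σ : G.Strat1)
    (h : ∀ τ, c ≤ G.payoff ω n z σ τ) : c ≤ G.value ω n z := by
  obtain ⟨C, hC⟩ := G.g_bdd
  have : Nonempty G.Strat2 := by
    obtain ⟨j⟩ := G.neJ
    exact ⟨fun _ _ _ => j⟩
  have hb : BddAbove (Set.range fun σ : G.Strat1 => ⨅ τ : G.Strat2, G.payoff ω n z σ τ) := by
    refine ⟨C, ?_⟩
    rintro _ ⟨σ, rfl⟩
    obtain ⟨τ0⟩ := this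
    refine (ciInf_le ⟨-C, ?_⟩ τ0).trans ((abs_le.1 (G.payoff_abs_le hC ω n z σ τ0)).2)
    rintro _ ⟨τ, rfl⟩
    exact (abs_le.1 (G.payoff_abs_le hC ω n z σ τ)).1
  exact le_ciSup_of_le hb σ (le_ciInf h)

/-- Player 2 can guarantee `c` ⟹ `v_n ≤ c`. -/
lemma value_le (ω : G.Ω) (n : ℕ) (z : Fin d → ℤ) (c : ℝ) (τ : G.Strat2)
    (h : ∀ σ, G.payoff ω n z σ τ ≤ c) : G.value ω n z ≤ c := by
  obtain ⟨C, hC⟩ := G.g_bdd
  have : Nonempty G.Strat1 := by
    obtain ⟨i⟩ := G.neI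
    exact ⟨fun _ _ => i⟩
  refine ciSup_le fun σ => (ciInf_le ⟨-C, ?_⟩ τ).trans (h σ)
  rintro _ ⟨τ, rfl⟩
  exact (abs_le.1 (G.payoff_abs_le hC ω n z σ τ)).1

end PercolationGame

end PG219
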