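import Pool.Agent.R219.PG.Seq

/-!
# The environment: the compact group `Π ZMod (m k)` with its Haar probability
-/

open MeasureTheory Filter Topology

namespace PG219

/-- the sample space -/
abbrev Om (K : ℕ) : Type := ∀ k : ℕ, ZMod (m K k)

instance neZero_m (K k : ℕ) : NeZero (m K k) := ⟨(m_pos K k).ne'⟩

instance (K : ℕ) : CompactSpace (Om K) := inferInstance
instance (K : ℕ) : IsTopologicalAddGroup (Om K) := inferInstance
instance (K : ℕ) : BorelSpace (ZMod (m K 0)) := inferInstance
instance (K : ℕ) : BorelSpace (Om K) := inferInstance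
instance (K : ℕ) : SecondCountableTopology (Om K) := inferInstance

/-- the Haar probability -/
noncomputable def mu (K : ℕ) : Measure (Om K) := Measure.addHaarMeasure ⊤

instance (K : ℕ) : IsProbabilityMeasure (mu K) := ⟨by
  have := Measure.addHaarMeasure_self (G := Om K) (K₀ := ⊤)
  simpa [mu] using this⟩

instance (K : ℕ) : (mu K).IsAddLeftInvariant := by unfold mu; infer_instance
instance (K : ℕ) : (mu K).InnerRegular := by unfold mu; infer_instance

lemma mp_add (K : ℕ) (a : Om K) : MeasurePreserving (fun c => a + c) (mu K) (mu K) :=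
  measurePreserving_add_left _ _

/-- the integer multiples of `(1,1,1,…)` are dense -/
lemma dense_one {K : ℕ} (hK : 0 < K) : DenseRange (fun n : ℤ => n • (1 : Om K)) := by
  intro x
  rw [mem_closure_iff]
  intro o ho hx
  obtain ⟨I, u, hu, hsub⟩ := (isOpen_pi_iff.1 ho) x hx
  obtain ⟨k, hk⟩ := Nat.chineseRemainderOfFinset (fun i => (x i).val) (fun i => m K i) I
    (fun i _ => (m_pos K i).ne') (fun i _ j _ hij => coprime_m hK hij)
  refine ⟨(k : ℤ) • (1 : Om K), hsub ?_, ⟨(k : ℤ), rfl⟩⟩
  intro i hi
  have h1 := hk i (by simpa using hi)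
  have h2 : ((k : ℤ) • (1 : Om K)) i = x i := by
    have := (ZMod.natCast_eq_natCast_iff _ _ _).2 h1
    simp only [Pi.smul_apply, Pi.one_apply]
    rw [ZMod.natCast_val, ZMod.cast_id] at this
    simpa using this
  rw [h2]
  exact (hu i (by simpa using hi)).2

lemma ergodic_one {K : ℕ} (hK : 0 < K) : Ergodic (fun c : Om K => 1 + c) (mu K) :=
  ergodic_add_left_of_denseRange_zsmul (dense_one hK) (mu K)

/-- marginals are uniform -/
lemma mu_coord (K k : ℕ) (a : ZMod (m K k)) :
    mu K {c | c k = a} = ((m K k : ℕ) : ENNReal)⁻¹ := by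
  classical
  have hmeas : ∀ a : ZMod (m K k), MeasurableSet {c : Om K | c k = a} := fun a =>
    (measurable_pi_apply k : Measurable fun c : Om K => c k) (MeasurableSet.singleton a)
  have hinv : ∀ a : ZMod (m K k), mu K {c | c k = a} = mu K {c | c k = 0} := by
    intro a
    have h := (mp_add K (Pi.single k a)).measure_preimage (hmeas a).nullMeasurableSet
    rw [← h]
    congr 1
    ext c
    simp
  have htot : ∑ a : ZMod (m K k), mu K {c | c k = a} = 1 := by
    rw [← measure_biUnion_finset]
    · have : (⋃ b ∈ (Finset.univ : Finset (ZMod (m K k))), {c : Om K | c k = b}) = Set.univ := by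
        ext c; simp
      rw [this, measure_univ]
    · intro a _ b _ hab
      refine Set.disjoint_left.2 fun c hc hc' => hab ?_
      rw [← hc, ← hc']
    · intro a _; exact hmeas a
  rw [Finset.sum_congr rfl fun a _ => hinv a] at htot
  simp only [Finset.sum_const, Finset.card_univ, ZMod.card, nsmul_eq_mul] at htot
  rw [hinv a]
  exact ENNReal.eq_inv_of_mul_eq_one_left (by rwa [mul_comm] at htot)

/-- probability of a finite set of values of the coordinate `k` -/
lemma mu_coord_mem (K k : ℕ) (S : Finset (ZMod (m K k))) :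
    mu K {c | c k ∈ S} ≤ S.card * ((m K k : ℕ) : ENNReal)⁻¹ := by
  have : {c : Om K | c k ∈ S} = ⋃ b ∈ S, {c : Om K | c k = b} := by
    ext c; simp
  rw [this]
  refine (measure_biUnion_finset_le _ _).trans ?_
  rw [Finset.sum_congr rfl fun a _ => mu_coord K k a]
  simp

end PG219
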