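import Pool.Agent.R219.PG.Defs
import Pool.Agent.R219.PG.Meas
import Pool.Agent.R219.PG.Arith

/-!
# The game
-/

open MeasureTheory Filter Topology

namespace PG219

variable {K : ℕ}

/-- translation vector of `z` -/
def phi (K : ℕ) (z : Fin 2 → ℤ) : Om K :=
  fun k => ((z 0 : ℤ) : ZMod (m K k)) + ((l K k : ℕ) : ZMod (m K k)) * ((z 1 : ℤ) : ZMod (m K k))

/-- the shifts -/
def sh (K : ℕ) (z : Fin 2 → ℤ) (ω : Om K) : Om K := fun k => phi K z k + ω k

/-- level `k` is active at site `z` -/
def Act (ω : Om K) (z : Fin 2 → ℤ) (k : ℕ) : Prop := (sh K z ω k).val < l K k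

/-- the largest active level exists and is odd -/
def Win (ω : Om K) (z : Fin 2 → ℤ) : Prop := ∃ k, Odd k ∧ Act ω z k ∧ ∀ j > k, ¬ Act ω z j

/-- no active level -/
def Neu (ω : Om K) (z : Fin 2 → ℤ) : Prop := ∀ k, ¬ Act ω z k

open Classical in
/-- payoffs; `I = Bool` (`true` is up), `J = Bool` (`true` is go) -/
noncomputable def pay (ω : Om K) (z : Fin 2 → ℤ) (i j : Bool) : ℝ :=
  if Win ω z ∨ (Neu ω z ∧ i = true ∧ j = false) then 1 else 0

/-- transitions -/
def tr (i j : Bool) : Fin 2 → ℤ := if i = true ∧ j = true then ![1, 1] else ![1, 0]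

lemma phi_add (z z' : Fin 2 → ℤ) : phi K (z + z') = phi K z + phi K z' := by
  funext k
  simp only [phi, Pi.add_apply]
  push_cast
  ring

lemma sh_sh (z z' : Fin 2 → ℤ) (ω : Om K) : sh K z' (sh K z ω) = sh K (z + z') ω := by
  funext k
  simp only [sh, phi_add, Pi.add_apply]
  ring

lemma Act_sh (z z' : Fin 2 → ℤ) (ω : Om K) (k : ℕ) : Act (sh K z ω) z' k ↔ Act ω (z + z') k := by
  unfold Act
  rw [sh_sh]

lemma sh_mp (z : Fin 2 → ℤ) : MeasurePreserving (sh K z) (mu K) (mu K) := mp_add K (phi K z)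

lemma measurable_Act (z : Fin 2 → ℤ) (k : ℕ) : MeasurableSet {ω : Om K | Act ω z k} := by
  have h : Measurable fun ω : Om K => sh K z ω k :=
    (measurable_pi_apply k).comp (sh_mp z).measurable
  exact h (MeasurableSet.of_discrete (s := {a : ZMod (m K k) | a.val < l K k}))

lemma measurable_Win (z : Fin 2 → ℤ) : MeasurableSet {ω : Om K | Win ω z} := by
  have : {ω : Om K | Win ω z} = ⋃ k : ℕ, ⋃ _ : Odd k,
      ({ω : Om K | Act ω z k} ∩ ⋂ j : ℕ, ⋂ _ : j > k, {ω : Om K | Act ω z j}ᶜ) := by
    ext ω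
    simp only [Win, Set.mem_ofPred_eq, Set.mem_iUnion, Set.mem_inter_iff, Set.mem_iInter,
      Set.mem_compl_iff]
    constructor
    · rintro ⟨k, h1, h2, h3⟩; exact ⟨k, h1, h2, h3⟩
    · rintro ⟨k, h1, h2, h3⟩; exact ⟨k, h1, h2, h3⟩
  rw [this]
  refine MeasurableSet.iUnion fun k => MeasurableSet.iUnion fun _ =>
    (measurable_Act z k).inter (MeasurableSet.iInter fun j => MeasurableSet.iInter fun _ =>
      (measurable_Act z j).compl)

lemma measurable_Neu (z : Fin 2 → ℤ) : MeasurableSet {ω : Om K | Neu ω z} := by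
  have : {ω : Om K | Neu ω z} = ⋂ k : ℕ, {ω : Om K | Act ω z k}ᶜ := by
    ext ω
    simp [Neu]
  rw [this]
  exact MeasurableSet.iInter fun j => (measurable_Act z j).compl

lemma pay_sh (z z' : Fin 2 → ℤ) (i j : Bool) (ω : Om K) :
    pay (sh K z ω) z' i j = pay ω (z + z') i j := by
  have h1 : Win (sh K z ω) z' ↔ Win ω (z + z') := by
    unfold Win
    simp only [Act_sh]
  have h2 : Neu (sh K z ω) z' ↔ Neu ω (z + z') := by
    unfold Neu
    simp only [Act_sh]
  unfold pay
  by_cases h : Win ω (z + z') ∨ (Neu ω (z + z') ∧ i = true ∧ j = false)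
  · rw [if_pos h, if_pos (by rwa [h1, h2])]
  · rw [if_neg h, if_neg (by rwa [h1, h2])]

/-- the game -/
noncomputable def game (K : ℕ) (hK : 0 < K) : PercolationGame 2 where
  I := Bool
  J := Bool
  finI := inferInstance
  neI := inferInstance
  finJ := inferInstance
  neJ := inferInstance
  Ω := Om K
  mΩ := inferInstance
  P := mu K
  prob := inferInstance
  τ := sh K
  τ_pres := sh_mp
  τ_add := by
    intro z z'
    funext ω
    simp only [Function.comp_apply, sh_sh]
    rw [add_comm]
  erg := by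
    intro F hF hinv
    have hone : sh K ![1, 0] = fun c : Om K => 1 + c := by
      funext c k
      simp [sh, phi]
    have hz : sh K 0 = id := by
      funext c k
      simp [sh, phi]
    have h1 : (fun c : Om K => 1 + c) ⁻¹' F = F := by
      have h2 : Function.Injective (sh K ![1, 0]) := by
        intro a b hab
        rw [hone] at hab
        simpa using hab
      have h3 := hinv ![1, 0]
      conv_lhs => rw [← h3]
      rw [← hone]
      exact Set.preimage_image_eq F h2
    rcases (ergodic_one hK).measure_self_or_compl_eq_zero hF h1 with h | h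
    · exact Or.inl h
    · right
      exact (prob_compl_eq_zero_iff hF).1 h
  g := pay
  g_meas := by
    intro z i j
    classical
    have hs : MeasurableSet {ω : Om K | Win ω z ∨ (Neu ω z ∧ i = true ∧ j = false)} :=
      (measurable_Win z).union ((measurable_Neu z).inter (MeasurableSet.const _))
    exact Measurable.ite hs measurable_const measurable_const
  g_bdd := by
    refine ⟨1, fun ω z i j => ?_⟩
    unfold pay
    split_ifs <;> simp
  g_stat := by
    intro z z' i j ω
    exact pay_sh z z' i j ω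
  q := tr

lemma game_oriented (hK : 0 < K) : (game K hK).Oriented := by
  refine ⟨![1, 0], fun i j => ?_⟩
  change 0 < ∑ a, tr i j a * ![1, 0] a
  unfold tr
  split_ifs <;> simp

lemma act_site (ω : Om K) (z : Fin 2 → ℤ) (k i r : ℕ) :
    Act ω (z + ![(i : ℤ), (r : ℤ)]) k ↔
      ((sh K z ω k).val + i + l K k * r) % (l K k * s K k) < l K k := by
  have h : sh K (z + ![(i : ℤ), (r : ℤ)]) ω k
      = (((sh K z ω k).val + i + l K k * r : ℕ) : ZMod (m K k)) := by
    push_cast
    rw [ZMod.natCast_zmod_val]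
    simp only [sh, phi_add, Pi.add_apply]
    have h0 : phi K ![(i : ℤ), (r : ℤ)] k
        = (i : ZMod (m K k)) + (l K k : ZMod (m K k)) * (r : ZMod (m K k)) := by
      unfold phi
      simp
    rw [h0]
    ring
  unfold Act
  rw [h, ZMod.val_natCast]
  rfl

end PG219
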