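import Pool.Agent.R219.PG.Game

/-!
# Almost surely all large scales are good
-/

open MeasureTheory Filter Topology

namespace PG219

variable {K : ℕ}

/-- the horizon of level `k` from `z` lies in one block -/
def Good1 (ω : Om K) (z : Fin 2 → ℤ) (k : ℕ) : Prop :=
  (sh K z ω k).val % l K k + n K k ≤ l K k

/-- no higher level is active in the region of level `k` from `z` -/
def Good2 (ω : Om K) (z : Fin 2 → ℤ) (k : ℕ) : Prop :=
  ∀ j > k, ∀ i < n K k, ∀ r ≤ s K k, ¬ Act ω (z + ![(i : ℤ), (r : ℤ)]) j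

lemma mu_sh_mem (z : Fin 2 → ℤ) (k : ℕ) (p : ℕ → Prop) [DecidablePred p] (C : ℕ)
    (hC : ((Finset.range (m K k)).filter p).card ≤ C) :
    mu K {ω | p (sh K z ω k).val} ≤ C * ((m K k : ℕ) : ENNReal)⁻¹ := by
  classical
  set S : Finset (ZMod (m K k)) := Finset.univ.filter fun a => p a.val with hS
  have hpre : {ω : Om K | p (sh K z ω k).val} = sh K z ⁻¹' {c | c k ∈ S} := by
    ext ω
    simp [hS]
  have hmeas : MeasurableSet {c : Om K | c k ∈ S} :=
    (measurable_pi_apply k : Measurable fun c : Om K => c k)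
      (MeasurableSet.of_discrete (s := (S : Set (ZMod (m K k)))))
  rw [hpre, (sh_mp z).measure_preimage hmeas.nullMeasurableSet]
  refine (mu_coord_mem K k S).trans ?_
  have hcard : S.card ≤ C := by
    refine le_trans ?_ hC
    refine Finset.card_le_card_of_injOn (fun a => a.val) ?_ ?_
    · intro a ha
      have ha' : p a.val := by simpa [hS] using ha
      simp only [Finset.coe_filter, Finset.mem_range, Set.mem_ofPred_eq]
      exact ⟨ZMod.val_lt a, ha'⟩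
    · intro a _ b _ hab
      exact ZMod.val_injective _ hab
  gcongr

lemma mu_Act (z : Fin 2 → ℤ) (k : ℕ) : mu K {ω | Act ω z k} ≤ ((s K k : ℕ) : ENNReal)⁻¹ := by
  have h := mu_sh_mem (K := K) z k (fun v => v < l K k) (l K k) (by
    refine (Finset.card_le_card (t := Finset.range (l K k)) ?_).trans (by simp)
    intro v hv
    simp only [Finset.mem_filter, Finset.mem_range] at hv ⊢
    exact hv.2)
  refine h.trans (le_of_eq ?_)
  unfold m
  have hl : (l K k : ENNReal) ≠ 0 := by exact_mod_cast (l_pos K k).ne'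
  have hl' : (l K k : ENNReal) ≠ ⊤ := ENNReal.natCast_ne_top _
  push_cast
  rw [ENNReal.mul_inv (Or.inl hl) (Or.inl hl'), ← mul_assoc, ENNReal.mul_inv_cancel hl hl', one_mul]

lemma mu_bad1 (hK : 0 < K) (z : Fin 2 → ℤ) (k : ℕ) :
    mu K {ω | ¬ Good1 ω z k} ≤ (2⁻¹ : ENNReal) ^ k := by
  have h := mu_sh_mem (K := K) z k (fun v => ¬ (v % l K k + n K k ≤ l K k)) (s K k * n K k)
    (card_bad (l K k) (s K k) (n K k) (l_pos K k))
  refine h.trans ?_
  unfold m
  have hl : (l K k : ENNReal) ≠ 0 := by exact_mod_cast (l_pos K k).ne'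
  have hl' : (l K k : ENNReal) ≠ ⊤ := ENNReal.natCast_ne_top _
  have hs : (s K k : ENNReal) ≠ 0 := by exact_mod_cast (s_pos K k).ne'
  have hs' : (s K k : ENNReal) ≠ ⊤ := ENNReal.natCast_ne_top _
  push_cast
  rw [ENNReal.mul_inv (Or.inl hl) (Or.inl hl')]
  have e1 : (s K k : ENNReal) * (n K k : ENNReal) * ((l K k : ENNReal)⁻¹ * (s K k : ENNReal)⁻¹)
      = ((s K k : ENNReal) * (s K k : ENNReal)⁻¹) * ((n K k : ENNReal) / (l K k : ENNReal)) := by
    rw [ENNReal.div_eq_inv_mul]; ring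
  rw [e1, ENNReal.mul_inv_cancel hs hs', one_mul]
  rw [ENNReal.div_le_iff hl hl', ← ENNReal.inv_pow]
  have h2 := l_ge hK k
  have h3 : (n K k : ENNReal) * 2 ^ k ≤ (l K k : ENNReal) := by exact_mod_cast h2
  rw [mul_comm, ← div_eq_mul_inv]
  exact (ENNReal.le_div_iff_mul_le (Or.inl (by positivity)) (Or.inl (by finiteness))).2 h3

lemma mu_bad2_level (hK : 0 < K) (z : Fin 2 → ℤ) {k j : ℕ} (hkj : k < j) :
    mu K {ω | ∃ i < n K k, ∃ r ≤ s K k, Act ω (z + ![(i : ℤ), (r : ℤ)]) j}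
      ≤ (2⁻¹ : ENNReal) ^ j := by
  classical
  have hset : {ω : Om K | ∃ i < n K k, ∃ r ≤ s K k, Act ω (z + ![(i : ℤ), (r : ℤ)]) j}
      = ⋃ p ∈ (Finset.range (n K k)) ×ˢ (Finset.range (s K k + 1)),
        {ω : Om K | Act ω (z + ![(p.1 : ℤ), (p.2 : ℤ)]) j} := by
    ext ω
    simp only [Set.mem_ofPred_eq, Set.mem_iUnion, Finset.mem_product, Finset.mem_range,
      Prod.exists]
    constructor
    · rintro ⟨i, hi, r, hr, h⟩
      exact ⟨i, r, ⟨hi, by omega⟩, h⟩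
    · rintro ⟨i, r, ⟨hi, hr⟩, h⟩
      exact ⟨i, hi, r, by omega, h⟩
  rw [hset]
  refine (measure_biUnion_finset_le _ _).trans ?_
  refine (Finset.sum_le_sum fun p _ => mu_Act (K := K) _ j).trans ?_
  rw [Finset.sum_const, Finset.card_product, Finset.card_range, Finset.card_range, nsmul_eq_mul]
  have hs : (s K j : ENNReal) ≠ 0 := by exact_mod_cast (s_pos K j).ne'
  have hs' : (s K j : ENNReal) ≠ ⊤ := ENNReal.natCast_ne_top _
  rw [← div_eq_mul_inv, ENNReal.div_le_iff hs hs', ← ENNReal.inv_pow,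
    mul_comm (((2 : ENNReal) ^ j)⁻¹), ← div_eq_mul_inv]
  refine (ENNReal.le_div_iff_mul_le (Or.inl (by positivity)) (Or.inl (by finiteness))).2 ?_
  have := s_ge' hK hkj
  rw [mul_comm]
  exact_mod_cast this

lemma mu_bad2 (hK : 0 < K) (z : Fin 2 → ℤ) (k : ℕ) :
    mu K {ω | ¬ Good2 ω z k} ≤ (2⁻¹ : ENNReal) ^ k := by
  have hset : {ω : Om K | ¬ Good2 ω z k} ⊆ ⋃ j' : ℕ,
      {ω : Om K | ∃ i < n K k, ∃ r ≤ s K k, Act ω (z + ![(i : ℤ), (r : ℤ)]) (k + 1 + j')} := by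
    intro ω hω
    simp only [Set.mem_ofPred_eq, Good2] at hω
    push Not at hω
    obtain ⟨j, hj, i, hi, r, hr, h⟩ := hω
    simp only [Set.mem_iUnion, Set.mem_ofPred_eq]
    refine ⟨j - (k + 1), i, hi, r, hr, ?_⟩
    have : k + 1 + (j - (k + 1)) = j := by omega
    rwa [this]
  refine (measure_mono hset).trans ((measure_iUnion_le _).trans ?_)
  calc ∑' j' : ℕ, mu K {ω : Om K | ∃ i < n K k, ∃ r ≤ s K k,
          Act ω (z + ![(i : ℤ), (r : ℤ)]) (k + 1 + j')}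
      ≤ ∑' j' : ℕ, (2⁻¹ : ENNReal) ^ (k + 1 + j') :=
        ENNReal.tsum_le_tsum fun j' => mu_bad2_level hK z (by omega)
    _ = (2⁻¹ : ENNReal) ^ (k + 1) * ∑' j' : ℕ, (2⁻¹ : ENNReal) ^ j' := by
        rw [← ENNReal.tsum_mul_left]
        exact tsum_congr fun j' => pow_add _ _ _
    _ = (2⁻¹ : ENNReal) ^ k := by
        rw [ENNReal.tsum_geometric, ENNReal.one_sub_inv_two, inv_inv, pow_succ, mul_assoc,
          ENNReal.inv_mul_cancel (by norm_num) (by norm_num), mul_one]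

lemma ae_good (hK : 0 < K) (z : Fin 2 → ℤ) :
    ∀ᵐ ω ∂(mu K), ∀ᶠ k in atTop, Good1 ω z k ∧ Good2 ω z k := by
  have hsum : ∑' k : ℕ, (2⁻¹ : ENNReal) ^ k ≠ ⊤ := by
    rw [ENNReal.tsum_geometric, ENNReal.one_sub_inv_two, inv_inv]
    norm_num
  have h1 : ∀ᵐ ω ∂(mu K), ∀ᶠ k in atTop, ω ∉ {ω : Om K | ¬ Good1 ω z k} := by
    refine ae_eventually_notMem ?_
    exact ne_top_of_le_ne_top hsum (ENNReal.tsum_le_tsum fun k => mu_bad1 hK z k)
  have h2 : ∀ᵐ ω ∂(mu K), ∀ᶠ k in atTop, ω ∉ {ω : Om K | ¬ Good2 ω z k} := by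
    refine ae_eventually_notMem ?_
    exact ne_top_of_le_ne_top hsum (ENNReal.tsum_le_tsum fun k => mu_bad2 hK z k)
  filter_upwards [h1, h2] with ω hω1 hω2
  filter_upwards [hω1, hω2] with k hk1 hk2
  exact ⟨not_not.1 hk1, not_not.1 hk2⟩

end PG219
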