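import Mathlib

/-!
# The scales
-/

namespace PG219

/-- auxiliary: width parameter from `Q` -/
def sF (K k Q : ℕ) : ℕ := 1 + K * 2 ^ (k + 1) * Q
/-- auxiliary: horizon -/
def nF (K k Q : ℕ) : ℕ := K * (sF K k Q + 1) * (k + 1) * Q
/-- auxiliary: block length -/
def lF (K k Q : ℕ) : ℕ := 1 + Q * (nF K k Q) * 2 ^ k

/-- the driving sequence -/
def Q (K : ℕ) : ℕ → ℕ
  | 0 => 1
  | k + 1 => Q K k * (lF K k (Q K k) * sF K k (Q K k)) * (nF K k (Q K k) * (sF K k (Q K k) + 1))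

/-- number of residues of rows -/
def s (K k : ℕ) : ℕ := sF K k (Q K k)
/-- horizon -/
def n (K k : ℕ) : ℕ := nF K k (Q K k)
/-- block length -/
def l (K k : ℕ) : ℕ := lF K k (Q K k)
/-- the period of level `k` -/
def m (K k : ℕ) : ℕ := l K k * s K k

lemma s_eq (K k : ℕ) : s K k = 1 + K * 2 ^ (k + 1) * Q K k := rfl
lemma n_eq (K k : ℕ) : n K k = K * (s K k + 1) * (k + 1) * Q K k := rfl
lemma l_eq (K k : ℕ) : l K k = 1 + Q K k * n K k * 2 ^ k := rfl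
lemma Q_succ (K k : ℕ) : Q K (k + 1) = Q K k * m K k * (n K k * (s K k + 1)) := rfl
lemma Q_zero (K : ℕ) : Q K 0 = 1 := rfl

lemma s_pos (K k : ℕ) : 0 < s K k := by rw [s_eq]; omega
lemma l_pos (K k : ℕ) : 0 < l K k := by rw [l_eq]; omega
lemma m_pos (K k : ℕ) : 0 < m K k := Nat.mul_pos (l_pos K k) (s_pos K k)

variable {K : ℕ} (hK : 0 < K)

include hK

lemma Q_pos (k : ℕ) : 0 < Q K k := by
  induction k with
  | zero => simp [Q_zero]
  | succ k ih =>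
    rw [Q_succ, n_eq]
    have := m_pos K k
    positivity

lemma n_pos (k : ℕ) : 0 < n K k := by
  rw [n_eq]; have := Q_pos hK k; positivity

lemma Q_dvd_of_le {j k : ℕ} (h : j ≤ k) : Q K j ∣ Q K k := by
  induction k, h using Nat.le_induction with
  | base => exact dvd_rfl
  | succ k _ ih => exact ih.trans (by rw [Q_succ, mul_assoc]; exact dvd_mul_right _ _)

lemma m_dvd_Q {j k : ℕ} (h : j < k) : m K j ∣ Q K k := by
  refine Dvd.dvd.trans ?_ (Q_dvd_of_le hK (Nat.succ_le_of_lt h))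
  rw [Nat.succ_eq_add_one, Q_succ, mul_comm (Q K j), mul_assoc]; exact dvd_mul_right _ _

lemma l_le_Q {j k : ℕ} (h : j < k) : l K j ≤ Q K k :=
  (Nat.le_mul_of_pos_right _ (s_pos K j)).trans (Nat.le_of_dvd (Q_pos hK k) (m_dvd_Q hK h))

lemma ns_le_Q {j k : ℕ} (h : j < k) : n K j * (s K j + 1) ≤ Q K k := by
  refine le_trans ?_ (Nat.le_of_dvd (Q_pos hK k) (Q_dvd_of_le hK (Nat.succ_le_of_lt h)))
  rw [Nat.succ_eq_add_one, Q_succ]
  exact Nat.le_mul_of_pos_left _ (Nat.mul_pos (Q_pos hK j) (m_pos K j))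

lemma coprime_m_Q (k : ℕ) : Nat.Coprime (m K k) (Q K k) := by
  unfold m
  refine Nat.Coprime.mul_left ?_ ?_
  · rw [l_eq, mul_assoc]
    rw [Nat.coprime_iff_gcd_eq_one]
    simp
  · rw [s_eq]
    rw [Nat.coprime_iff_gcd_eq_one]
    simp

lemma coprime_m {j k : ℕ} (h : j ≠ k) : Nat.Coprime (m K j) (m K k) := by
  rcases lt_or_gt_of_ne h with h | h
  · exact ((coprime_m_Q hK k).symm.coprime_dvd_left (m_dvd_Q hK h))
  · exact ((coprime_m_Q hK j).symm.coprime_dvd_left (m_dvd_Q hK h)).symm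

/-- `K 2^(k+1) ≤ s k` -/
lemma s_ge (k : ℕ) : K * 2 ^ (k + 1) ≤ s K k := by
  rw [s_eq]
  have := Nat.le_mul_of_pos_right (K * 2 ^ (k + 1)) (Q_pos hK k)
  omega

lemma s_ge' {k j : ℕ} (h : k < j) : 2 ^ j * (n K k * (s K k + 1)) ≤ s K j := by
  rw [s_eq K j]
  calc 2 ^ j * (n K k * (s K k + 1)) ≤ 2 ^ j * Q K j := Nat.mul_le_mul_left _ (ns_le_Q hK h)
    _ ≤ K * 2 ^ (j + 1) * Q K j := by
      apply Nat.mul_le_mul_right
      calc 2 ^ j ≤ 2 ^ (j + 1) := Nat.pow_le_pow_right (by norm_num) (Nat.le_succ _)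
        _ ≤ K * 2 ^ (j + 1) := Nat.le_mul_of_pos_left _ hK
    _ ≤ _ := by omega

lemma l_ge (k : ℕ) : n K k * 2 ^ k ≤ l K k := by
  rw [l_eq, mul_assoc]
  have := Nat.le_mul_of_pos_left (n K k * 2 ^ k) (Q_pos hK k)
  omega

lemma n_le_l (k : ℕ) : n K k ≤ l K k :=
  (Nat.le_mul_of_pos_right _ (by positivity)).trans (l_ge hK k)

lemma K_mul_s_le_n (k : ℕ) : K * s K k ≤ n K k := by
  rw [n_eq]
  have h1 : K * s K k ≤ K * (s K k + 1) := Nat.mul_le_mul_left _ (Nat.le_succ _)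
  refine h1.trans ?_
  rw [mul_assoc (K * (s K k + 1))]
  exact Nat.le_mul_of_pos_right _ (Nat.mul_pos (Nat.succ_pos _) (Q_pos hK k))

lemma le_n (k : ℕ) : k ≤ n K k := by
  rw [n_eq]
  have h1 : 1 ≤ K * (s K k + 1) := Nat.mul_pos hK (Nat.succ_pos _)
  calc k ≤ k + 1 := Nat.le_succ _
    _ ≤ K * (s K k + 1) * (k + 1) := Nat.le_mul_of_pos_left _ h1
    _ ≤ _ := Nat.le_mul_of_pos_right _ (Q_pos hK k)

lemma sum_l_le (k : ℕ) : K * ((s K k + 1) * ∑ j ∈ Finset.range k, l K j) ≤ n K k := by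
  have h : ∑ j ∈ Finset.range k, l K j ≤ k * Q K k := by
    calc ∑ j ∈ Finset.range k, l K j ≤ ∑ j ∈ Finset.range k, Q K k :=
          Finset.sum_le_sum fun j hj => l_le_Q hK (Finset.mem_range.1 hj)
      _ = k * Q K k := by simp
  rw [n_eq]
  calc K * ((s K k + 1) * ∑ j ∈ Finset.range k, l K j)
      ≤ K * ((s K k + 1) * (k * Q K k)) := by gcongr
    _ ≤ K * ((s K k + 1) * ((k + 1) * Q K k)) := by gcongr; omega
    _ = _ := by ring

end PG219
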