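import Pool.Agent.R219.PG.Prob

/-!
# Good strategies on good scales
-/

open MeasureTheory Filter Topology

namespace PG219

variable {K : ℕ}

section traj

variable (hK : 0 < K) (σ : (game K hK).Strat1) (τ : (game K hK).Strat2) (z : Fin 2 → ℤ)

/-- the action of Player 1 at stage index `i` -/
noncomputable def a1 (i : ℕ) : Bool := σ ((game K hK).play σ τ z i).1 ((game K hK).play σ τ z i).2

/-- the action of Player 2 at stage index `i` -/
noncomputable def a2 (i : ℕ) : Bool :=
  τ ((game K hK).play σ τ z i).1 ((game K hK).play σ τ z i).2 (a1 hK σ τ z i)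

/-- number of upward moves before stage index `i` -/
noncomputable def rr : ℕ → ℕ
  | 0 => 0
  | i + 1 => rr i + if a1 hK σ τ z i = true ∧ a2 hK σ τ z i = true then 1 else 0

lemma play_state (i : ℕ) :
    ((game K hK).play σ τ z i).2 = z + ![(i : ℤ), (rr hK σ τ z i : ℤ)] := by
  induction i with
  | zero =>
    funext a
    fin_cases a <;> simp [PercolationGame.play, rr]
  | succ i ih =>
    have h1 : ((game K hK).play σ τ z (i + 1)).2
        = ((game K hK).play σ τ z i).2 + tr (a1 hK σ τ z i) (a2 hK σ τ z i) := rfl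
    rw [h1, ih]
    funext a
    by_cases h : a1 hK σ τ z i = true ∧ a2 hK σ τ z i = true
    · fin_cases a <;> simp [tr, rr, h, add_assoc] <;> rfl
    · fin_cases a <;> simp [tr, rr, h, add_assoc] <;> rfl

lemma stage_eq (ω : Om K) (i : ℕ) :
    (game K hK).stagePayoff ω σ τ z i
      = pay ω (z + ![(i : ℤ), (rr hK σ τ z i : ℤ)]) (a1 hK σ τ z i) (a2 hK σ τ z i) := by
  rw [← play_state]
  rfl

end traj

/-- geometric sum bound -/
lemma sum_inv_s (hK : 0 < K) (k : ℕ) :
    ∑ j ∈ Finset.range k, (1 : ℝ) / s K j ≤ 1 / K := by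
  have hKr : (0 : ℝ) < K := by exact_mod_cast hK
  have h1 : ∀ j ∈ Finset.range k, (1 : ℝ) / s K j ≤ (1 / K) * (1 / 2) ^ (j + 1) := by
    intro j _
    have h := s_ge hK j
    have h' : (K : ℝ) * 2 ^ (j + 1) ≤ s K j := by exact_mod_cast h
    have : (1 / (K : ℝ)) * (1 / 2) ^ (j + 1) = 1 / (K * 2 ^ (j + 1)) := by
      rw [one_div_pow, one_div_mul_one_div]
    rw [this]
    exact one_div_le_one_div_of_le (by positivity) h'
  refine (Finset.sum_le_sum h1).trans ?_
  rw [← Finset.mul_sum]
  have h2 : ∑ j ∈ Finset.range k, (1 / 2 : ℝ) ^ (j + 1) = 1 - (1 / 2) ^ k := by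
    induction k with
    | zero => simp
    | succ k ih =>
      rw [Finset.sum_range_succ, ih (fun j hj => h1 j (Finset.mem_range.2
        ((Finset.mem_range.1 hj).trans (Nat.lt_succ_self _))))]
      ring
  rw [h2]
  have h3 : (0 : ℝ) ≤ (1 / 2) ^ k := by positivity
  calc 1 / (K : ℝ) * (1 - (1 / 2) ^ k) ≤ 1 / (K : ℝ) * 1 := by
        apply mul_le_mul_of_nonneg_left _ (by positivity)
        linarith
    _ = 1 / K := mul_one _

open Classical in
/-- number of visits to active sites of lower levels -/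
lemma low_count (hK : 0 < K) (ω : Om K) (z : Fin 2 → ℤ) (k : ℕ) (r : ℕ → ℕ) (h0 : r 0 = 0)
    (hmono : Monotone r) (hr : ∀ i ≤ n K k, r i ≤ s K k) :
    (∑ i ∈ Finset.range (n K k),
      (if ∃ j < k, Act ω (z + ![(i : ℤ), (r i : ℤ)]) j then (1 : ℝ) else 0))
      ≤ 2 * (n K k : ℝ) / K := by
  have hKr : (0 : ℝ) < K := by exact_mod_cast hK
  have hn0 : (0 : ℝ) < n K k := by exact_mod_cast n_pos hK k
  -- per level count
  have hlev : ∀ j ∈ Finset.range k,
      (∑ i ∈ Finset.range (n K k), (if Act ω (z + ![(i : ℤ), (r i : ℤ)]) j then (1 : ℝ) else 0))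
        ≤ (n K k : ℝ) * (1 / s K j) + (s K k + 1) * l K j := by
    intro j _
    rw [← Finset.sum_filter, Finset.sum_const, nsmul_eq_mul, mul_one]
    set w := (sh K z ω j).val with hw
    have hfil : ((Finset.range (n K k)).filter fun i : ℕ => Act ω (z + ![(i : ℤ), (r i : ℤ)]) j)
        = (Finset.range (n K k)).filter fun i => (w + i + l K j * r i) % (l K j * s K j) < l K j := by
      refine Finset.filter_congr fun i _ => ?_
      exact act_site ω z j i (r i)
    rw [hfil]
    have hcount := count_le (l K j * s K j) (l K j) (n K k + l K j * s K k) (n K k)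
      (Nat.mul_pos (l_pos K j) (s_pos K j)) (fun i => w + i + l K j * r i)
      (by
        intro a _ b _ hab
        have := hmono hab.le
        have := Nat.mul_le_mul_left (l K j) this
        simp only
        omega)
      (by
        intro i hi
        have := Nat.mul_le_mul_left (l K j) (hr i hi.le)
        simp only [h0]
        omega)
    have hcr : ((((Finset.range (n K k)).filter fun i =>
        (w + i + l K j * r i) % (l K j * s K j) < l K j).card : ℕ) : ℝ)
        ≤ (((n K k + l K j * s K k) / (l K j * s K j) + 1) * l K j : ℕ) := by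
      exact_mod_cast hcount
    refine hcr.trans ?_
    push_cast
    have hl : (0 : ℝ) < l K j := by exact_mod_cast l_pos K j
    have hs : (0 : ℝ) < s K j := by exact_mod_cast s_pos K j
    have hs1 : (1 : ℝ) ≤ s K j := by exact_mod_cast s_pos K j
    have hdiv : (((n K k + l K j * s K k) / (l K j * s K j) : ℕ) : ℝ)
        ≤ ((n K k : ℝ) + l K j * s K k) / (l K j * s K j) := by
      have := @Nat.cast_div_le ℝ _ _ _ (n K k + l K j * s K k) (l K j * s K j)
      push_cast at this
      exact this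
    calc ((((n K k + l K j * s K k) / (l K j * s K j) : ℕ) : ℝ) + 1) * l K j
        ≤ (((n K k : ℝ) + l K j * s K k) / (l K j * s K j) + 1) * l K j := by gcongr
      _ = (n K k : ℝ) * (1 / s K j) + (s K k / s K j + 1) * l K j := by
        field_simp
        ring
      _ ≤ (n K k : ℝ) * (1 / s K j) + (s K k + 1) * l K j := by
        gcongr
        exact div_le_self (by positivity) hs1
  -- sum over levels
  have hswap : (∑ i ∈ Finset.range (n K k),
      (if ∃ j < k, Act ω (z + ![(i : ℤ), (r i : ℤ)]) j then (1 : ℝ) else 0))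
      ≤ ∑ j ∈ Finset.range k, ∑ i ∈ Finset.range (n K k),
        (if Act ω (z + ![(i : ℤ), (r i : ℤ)]) j then (1 : ℝ) else 0) := by
    rw [Finset.sum_comm]
    refine Finset.sum_le_sum fun i _ => ?_
    split_ifs with h
    · obtain ⟨j, hj, hA⟩ := h
      calc (1 : ℝ) = (if Act ω (z + ![(i : ℤ), (r i : ℤ)]) j then (1 : ℝ) else 0) := by
            rw [if_pos hA]
        _ ≤ _ := Finset.single_le_sum (f := fun j =>
            (if Act ω (z + ![(i : ℤ), (r i : ℤ)]) j then (1 : ℝ) else 0))
            (fun _ _ => by split_ifs <;> norm_num) (Finset.mem_range.2 hj)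
    · exact Finset.sum_nonneg fun _ _ => by split_ifs <;> norm_num
  refine hswap.trans ((Finset.sum_le_sum hlev).trans ?_)
  rw [Finset.sum_add_distrib, ← Finset.mul_sum, ← Finset.mul_sum]
  have hA := sum_inv_s hK k
  have hB : ((s K k : ℝ) + 1) * ∑ j ∈ Finset.range k, (l K j : ℝ) ≤ (n K k : ℝ) / K := by
    rw [le_div_iff₀ hKr, mul_comm]
    have := sum_l_le hK k
    exact_mod_cast this
  calc (n K k : ℝ) * ∑ j ∈ Finset.range k, (1 : ℝ) / s K j
        + ((s K k : ℝ) + 1) * ∑ j ∈ Finset.range k, (l K j : ℝ)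
      ≤ (n K k : ℝ) * (1 / K) + (n K k : ℝ) / K := by gcongr
    _ = 2 * (n K k : ℝ) / K := by ring

/-- trajectories that stop on active rows of level `k` stay within `s k` rows -/
lemma rows_bound (ω : Om K) (z : Fin 2 → ℤ) (k : ℕ) (hg : Good1 ω z k) (r : ℕ → ℕ)
    (h0 : r 0 = 0) (h1 : ∀ i, r (i + 1) ≤ r i + 1)
    (hstop : ∀ i < n K k, Act ω (z + ![(i : ℤ), (r i : ℤ)]) k → r (i + 1) = r i) :
    ∀ i ≤ n K k, r i ≤ s K k := by
  set w := (sh K z ω k).val with hw
  obtain ⟨R, hR, hR0⟩ := exists_row (s K k) (w / l K k) (s_pos K k)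
  have key := traj_le (n K k) R r h0 (fun i _ => h1 i) (by
    intro i hi hri
    apply hstop i hi
    rw [act_site, active_iff (l K k) (s K k) (n K k) _ i (r i) (l_pos K k) (s_pos K k) hg hi, hri]
    exact hR0)
  intro i hi
  exact (key i hi).trans hR.le

lemma rr_succ (hK : 0 < K) (σ : (game K hK).Strat1) (τ : (game K hK).Strat2) (z : Fin 2 → ℤ)
    (i : ℕ) : rr hK σ τ z (i + 1)
      = rr hK σ τ z i + if a1 hK σ τ z i = true ∧ a2 hK σ τ z i = true then 1 else 0 := rfl

lemma rr_mono (hK : 0 < K) (σ : (game K hK).Strat1) (τ : (game K hK).Strat2) (z : Fin 2 → ℤ) :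
    Monotone (rr hK σ τ z) :=
  monotone_nat_of_le_succ fun i => by rw [rr_succ]; omega

lemma rr_le (hK : 0 < K) (σ : (game K hK).Strat1) (τ : (game K hK).Strat2) (z : Fin 2 → ℤ)
    (i : ℕ) : rr hK σ τ z (i + 1) ≤ rr hK σ τ z i + 1 := by
  rw [rr_succ]; split_ifs <;> omega

open Classical in
/-- even good scales: Player 2 can guarantee `2/K` -/
lemma even_value (hK : 0 < K) (ω : Om K) (z : Fin 2 → ℤ) (k : ℕ) (hk : ¬ Odd k)
    (hg1 : Good1 ω z k) (hg2 : Good2 ω z k) :
    (game K hK).value ω (n K k) z ≤ 2 / K := by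
  have hn0 : (0 : ℝ) < n K k := by exact_mod_cast n_pos hK k
  have hKr : (0 : ℝ) < K := by exact_mod_cast hK
  let τ : (game K hK).Strat2 := fun _ x _ => !(decide (Act ω x k))
  refine (game K hK).value_le ω (n K k) z _ τ fun σ => ?_
  have ha2 : ∀ i, a2 hK σ τ z i
      = !(decide (Act ω (z + ![(i : ℤ), (rr hK σ τ z i : ℤ)]) k)) := by
    intro i
    rw [← play_state]
    rfl
  have hrows := rows_bound ω z k hg1 (rr hK σ τ z) rfl (rr_le hK σ τ z) (by
    intro i _ hA
    have h2 : a2 hK σ τ z i = false := by rw [ha2, decide_eq_true hA]; rfl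
    rw [rr_succ, h2]
    simp)
  unfold PercolationGame.payoff
  rw [div_le_iff₀ hn0]
  calc ∑ i ∈ Finset.range (n K k), (game K hK).stagePayoff ω σ τ z i
      ≤ ∑ i ∈ Finset.range (n K k),
        (if ∃ j < k, Act ω (z + ![(i : ℤ), (rr hK σ τ z i : ℤ)]) j then (1 : ℝ) else 0) := by
        refine Finset.sum_le_sum fun i hi => ?_
        rw [stage_eq]
        have hi' := Finset.mem_range.1 hi
        have hr := hrows i hi'.le
        have hhigh : ∀ j > k, ¬ Act ω (z + ![(i : ℤ), (rr hK σ τ z i : ℤ)]) j :=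
          fun j hj => hg2 j hj i hi' _ hr
        split_ifs with h
        · unfold pay; split_ifs <;> norm_num
        · push Not at h
          unfold pay
          rw [if_neg]
          rintro (⟨j, hodd, hA, hmax⟩ | ⟨hN, _, hj⟩)
          · rcases lt_trichotomy j k with hlt | heq | hgt
            · exact h j hlt hA
            · exact hk (heq ▸ hodd)
            · exact hhigh j hgt hA
          · rw [ha2, decide_eq_false (hN k)] at hj
            exact Bool.noConfusion hj
    _ ≤ 2 * (n K k : ℝ) / K :=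
        low_count hK ω z k (rr hK σ τ z) rfl (rr_mono hK σ τ z) hrows
    _ = 2 / K * (n K k : ℝ) := by ring

open Classical in
/-- odd good scales: Player 1 can guarantee `1 - 3/K` -/
lemma odd_value (hK : 0 < K) (ω : Om K) (z : Fin 2 → ℤ) (k : ℕ) (hk : Odd k)
    (hg1 : Good1 ω z k) (hg2 : Good2 ω z k) :
    1 - 3 / K ≤ (game K hK).value ω (n K k) z := by
  have hn0 : (0 : ℝ) < n K k := by exact_mod_cast n_pos hK k
  have hKr : (0 : ℝ) < K := by exact_mod_cast hK
  let σ : (game K hK).Strat1 := fun _ x => !(decide (Act ω x k))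
  refine (game K hK).le_value ω (n K k) z _ σ fun τ => ?_
  have ha1 : ∀ i, a1 hK σ τ z i
      = !(decide (Act ω (z + ![(i : ℤ), (rr hK σ τ z i : ℤ)]) k)) := by
    intro i
    rw [← play_state]
    rfl
  have hrows := rows_bound ω z k hg1 (rr hK σ τ z) rfl (rr_le hK σ τ z) (by
    intro i _ hA
    have h2 : a1 hK σ τ z i = false := by rw [ha1, decide_eq_true hA]; rfl
    rw [rr_succ, h2]
    simp)
  unfold PercolationGame.payoff
  rw [le_div_iff₀ hn0]
  have hstage : ∀ i ∈ Finset.range (n K k),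
      1 - (if ∃ j < k, Act ω (z + ![(i : ℤ), (rr hK σ τ z i : ℤ)]) j then (1 : ℝ) else 0)
        - ((rr hK σ τ z (i + 1) : ℝ) - rr hK σ τ z i)
      ≤ (game K hK).stagePayoff ω σ τ z i := by
    intro i hi
    rw [stage_eq]
    have hi' := Finset.mem_range.1 hi
    have hr := hrows i hi'.le
    have hhigh : ∀ j > k, ¬ Act ω (z + ![(i : ℤ), (rr hK σ τ z i : ℤ)]) j :=
      fun j hj => hg2 j hj i hi' _ hr
    have hrs : (rr hK σ τ z i : ℝ) ≤ rr hK σ τ z (i + 1) := by
      exact_mod_cast rr_mono hK σ τ z (Nat.le_succ i)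
    have hpay0 : 0 ≤ pay ω (z + ![(i : ℤ), (rr hK σ τ z i : ℤ)]) (a1 hK σ τ z i)
        (a2 hK σ τ z i) := by
      unfold pay; split_ifs <;> norm_num
    by_cases hA : Act ω (z + ![(i : ℤ), (rr hK σ τ z i : ℤ)]) k
    · have hpay : pay ω (z + ![(i : ℤ), (rr hK σ τ z i : ℤ)]) (a1 hK σ τ z i)
          (a2 hK σ τ z i) = 1 := by
        unfold pay
        rw [if_pos]
        exact Or.inl ⟨k, hk, hA, hhigh⟩
      rw [hpay]
      split_ifs <;> linarith
    · by_cases h : ∃ j < k, Act ω (z + ![(i : ℤ), (rr hK σ τ z i : ℤ)]) j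
      · rw [if_pos h]; linarith
      · rw [if_neg h]
        have hN : Neu ω (z + ![(i : ℤ), (rr hK σ τ z i : ℤ)]) := by
          intro j
          rcases lt_trichotomy j k with hlt | heq | hgt
          · exact fun hAj => h ⟨j, hlt, hAj⟩
          · rw [heq]; exact hA
          · exact hhigh j hgt
        have h1 : a1 hK σ τ z i = true := by rw [ha1, decide_eq_false hA]; rfl
        by_cases h2 : a2 hK σ τ z i = true
        · have : (rr hK σ τ z (i + 1) : ℝ) = rr hK σ τ z i + 1 := by
            rw [rr_succ, if_pos ⟨h1, h2⟩]; push_cast; ring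
          rw [this]; linarith
        · have hpay : pay ω (z + ![(i : ℤ), (rr hK σ τ z i : ℤ)]) (a1 hK σ τ z i)
              (a2 hK σ τ z i) = 1 := by
            unfold pay
            rw [if_pos]
            exact Or.inr ⟨hN, h1, by simpa using h2⟩
          rw [hpay]; linarith
  have hlow := low_count hK ω z k (rr hK σ τ z) rfl (rr_mono hK σ τ z) hrows
  have htel : ∑ i ∈ Finset.range (n K k), ((rr hK σ τ z (i + 1) : ℝ) - rr hK σ τ z i)
      ≤ (n K k : ℝ) / K := by
    rw [Finset.sum_range_sub (fun i => (rr hK σ τ z i : ℝ))]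
    have h1 : (rr hK σ τ z (n K k) : ℝ) ≤ s K k := by exact_mod_cast hrows _ le_rfl
    have h2 : (rr hK σ τ z 0 : ℝ) = 0 := by simp [rr]
    have h3 : (s K k : ℝ) ≤ (n K k : ℝ) / K := by
      rw [le_div_iff₀ hKr, mul_comm]
      exact_mod_cast K_mul_s_le_n hK k
    rw [h2]; linarith
  refine le_trans ?_ (Finset.sum_le_sum hstage)
  rw [Finset.sum_sub_distrib, Finset.sum_sub_distrib, Finset.sum_const, Finset.card_range,
    nsmul_eq_mul, mul_one]
  have e : (1 - 3 / (K : ℝ)) * (n K k : ℝ) = n K k - 2 * (n K k : ℝ) / K - (n K k : ℝ) / K := by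
    ring
  rw [e]
  linarith

end PG219
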